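import Pool.Agent.P598.Final

/-!
# Knot complements with scalar curvature at least six and infinitely large Seifert surfaces

There is a knot `K` in the round 3-sphere and a Riemannian metric `g` on the complement of `K`,
at least as large as the round metric, with scalar curvature at least `6` everywhere, such that
every Seifert surface of `K` has infinite `g`-area.  Hence no constant `c(K)` as in the question
exists.  All definitions are in `Pool.Agent.P598.Defs`.
-/

namespace Pool.Agent.Results.MP_598e5a_gt.NoConstant

open Pool.Agent.P598

theorem result : ∃ K : Set E4, IsKnot K ∧ ∃ g : BilinField, IsRiemannianMetricOn (S3 \ K) g ∧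
    (∀ p ∈ S3 \ K, ∀ v : E4, inner ℝ p v = 0 → ‖v‖ ^ 2 ≤ form g p v v) ∧
    (∀ p ∈ S3 \ K, ScalarCurvatureGE g p 6) ∧
    ∀ S : Set E4, IsSeifertSurface K S → surfaceArea g (S \ K) = ⊤ :=
  Pool.Agent.P598.main

end Pool.Agent.Results.MP_598e5a_gt.NoConstant
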